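import Pool.Agent.X268.WM.Stm

/-!
# Purity from the Tate part of the tensor square
-/

set_option autoImplicit false
set_option linter.unusedSectionVars false

namespace Pool.Agent.X268.WM

open Module
open scoped TensorProduct ComplexConjugate

universe u

variable {Ω : Type} [Field Ω] [CharZero Ω] {q : ℕ}

section weil

theorem IsWeil.ne_zero (hq : 0 < q) {w : ℤ} {a : Ω} (h : IsWeil q w a) : a ≠ 0 := by
  rintro rfl
  have h1 := h.2 0 (by rw [minpoly.zero]; simp)
  rw [norm_zero, zero_pow two_ne_zero] at h1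
  have h2 : (0 : ℝ) < (q : ℝ) ^ w := zpow_pos (by exact_mod_cast hq) _
  rw [← h1] at h2
  exact lt_irrefl _ h2

/-- The conjugate `q ^ w / a` of a Weil number. -/
theorem IsWeil.minpoly_conj (hq : 0 < q) {w : ℤ} {a : Ω} (h : IsWeil q w a) :
    minpoly ℚ ((q : Ω) ^ w / a) = minpoly ℚ a := by
  let S := algebraicClosure ℚ Ω
  have : Algebra.IsAlgebraic ℚ S := algebraicClosure.isAlgebraic ℚ Ω
  have hmem : a ∈ S := h.1.isIntegral
  let a' : S := ⟨a, hmem⟩
  let φ : S →ₐ[ℚ] ℂ := IsAlgClosed.lift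
  have hval : ∀ x : S, minpoly ℚ (x : Ω) = minpoly ℚ x := fun x =>
    minpoly.algHom_eq S.val S.val.injective x
  have hφ : ∀ x : S, minpoly ℚ (φ x) = minpoly ℚ x := fun x =>
    minpoly.algHom_eq φ φ.injective x
  have hz : Polynomial.aeval (φ a') (minpoly ℚ a) = 0 := by
    have h1 : minpoly ℚ a = minpoly ℚ a' := hval a'
    rw [h1, ← hφ]
    exact minpoly.aeval _ _
  have hn := h.2 _ hz
  have hz0 : φ a' ≠ 0 := by
    intro h0
    rw [h0, norm_zero, zero_pow two_ne_zero] at hn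
    have h2 : (0 : ℝ) < (q : ℝ) ^ w := zpow_pos (by exact_mod_cast hq) _
    rw [← hn] at h2
    exact lt_irrefl _ h2
  have hconj : φ ((q : S) ^ w / a') = conj (φ a') := by
    rw [map_div₀, map_zpow₀, map_natCast, div_eq_iff hz0, mul_comm, Complex.mul_conj,
      Complex.normSq_eq_norm_sq, hn]
    push_cast
    rfl
  let c : ℂ →ₐ[ℚ] ℂ := (Complex.conjAe.toAlgHom.restrictScalars ℚ)
  have hc : minpoly ℚ (c (φ a')) = minpoly ℚ (φ a') := minpoly.algHom_eq c c.injective _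
  have h1 : minpoly ℚ ((q : Ω) ^ w / a) = minpoly ℚ ((q : S) ^ w / a') := by
    rw [← hval]
    congr 1
  have h2 : minpoly ℚ a = minpoly ℚ a' := hval a'
  rw [h1, h2, ← hφ, ← hφ, hconj]
  exact hc

theorem IsWeil.scale (hq : 0 < q) {w : ℤ} {a : Ω} (h : IsWeil q w a) (j : ℤ) :
    IsWeil q (w + 2 * j) (a * (q : Ω) ^ j) := by
  have hq0 : (q : Ω) ≠ 0 := by exact_mod_cast hq.ne'
  have hqQ : (q : ℚ) ≠ 0 := by exact_mod_cast hq.ne'
  refine ⟨?_, fun z hz => ?_⟩
  · have h1 : IsAlgebraic ℚ ((q : Ω) ^ j) := by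
      have h2 : (q : Ω) ^ j = algebraMap ℚ Ω ((q : ℚ) ^ j) := by
        rw [map_zpow₀, map_natCast]
      rw [h2]
      exact isAlgebraic_algebraMap _
    exact h.1.mul h1
  · set P : Polynomial ℚ := (minpoly ℚ a).comp (Polynomial.C ((q : ℚ) ^ (-j)) * Polynomial.X) with hP
    have h1 : Polynomial.aeval (a * (q : Ω) ^ j) P = 0 := by
      rw [hP, Polynomial.aeval_comp]
      have h2 : Polynomial.aeval (a * (q : Ω) ^ j)
          (Polynomial.C ((q : ℚ) ^ (-j)) * Polynomial.X) = a := by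
        rw [map_mul, Polynomial.aeval_C, Polynomial.aeval_X, map_zpow₀, map_natCast, zpow_neg,
          mul_left_comm, inv_mul_cancel₀ (zpow_ne_zero _ hq0), mul_one]
      rw [h2]
      exact minpoly.aeval _ _
    have h2 : Polynomial.aeval z P = 0 := by
      obtain ⟨R, hR⟩ := minpoly.dvd ℚ _ h1
      rw [hR, map_mul, hz, zero_mul]
    rw [hP, Polynomial.aeval_comp] at h2
    have h3 : Polynomial.aeval z (Polynomial.C ((q : ℚ) ^ (-j)) * Polynomial.X) =
        (q : ℂ) ^ (-j) * z := by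
      rw [map_mul, Polynomial.aeval_C, Polynomial.aeval_X, map_zpow₀, map_natCast]
    rw [h3] at h2
    have h4 := h.2 _ h2
    have hqR : (0 : ℝ) < q := by exact_mod_cast hq
    rw [norm_mul, norm_zpow, Complex.norm_natCast, mul_pow] at h4
    have h5 : ((q : ℝ) ^ (-j)) ^ 2 * (q : ℝ) ^ (2 * j) = 1 := by
      rw [← zpow_natCast, ← zpow_mul, ← zpow_add₀ hqR.ne']
      simp
      ring_nf
      simp
    rw [zpow_add₀ hqR.ne', ← h4]
    calc ‖z‖ ^ 2 = (((q : ℝ) ^ (-j)) ^ 2 * (q : ℝ) ^ (2 * j)) * ‖z‖ ^ 2 := by rw [h5, one_mul]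
      _ = ((q : ℝ) ^ (-j)) ^ 2 * ‖z‖ ^ 2 * (q : ℝ) ^ (2 * j) := by ring

theorem IsWeil.conj (hq : 0 < q) {w : ℤ} {a : Ω} (h : IsWeil q w a) :
    IsWeil q w ((q : Ω) ^ w / a) := by
  refine ⟨?_, fun z hz => h.2 z ?_⟩
  · by_contra hcon
    have h1 := minpoly.eq_zero (A := ℚ) (x := (q : Ω) ^ w / a)
      (fun h => hcon h.isAlgebraic)
    rw [h.minpoly_conj hq] at h1
    exact minpoly.ne_zero h.1.isIntegral h1
  · rwa [h.minpoly_conj hq] at hz

end weil

section gen

variable {W : FN.{u} Ω q}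

theorem mem_gen {a : Ω} {v : W.V} : v ∈ W.F.maxGenEigenspace a ↔
    ∃ k : ℕ, ((W.F - a • (1 : End Ω W.V)) ^ k) v = 0 :=
  Module.End.mem_maxGenEigenspace _ _ _

theorem N_comm_pow (hq : 0 < q) (a : Ω) (j : ℕ) (v : W.V) :
    ((W.F - (a / q) • (1 : End Ω W.V)) ^ j) (W.N v) =
      ((q : Ω) ^ j)⁻¹ • W.N (((W.F - a • (1 : End Ω W.V)) ^ j) v) := by
  have hq0 : (q : Ω) ≠ 0 := by exact_mod_cast hq.ne'
  induction j with
  | zero => simp
  | succ j ih =>
    rw [pow_succ', Module.End.mul_apply, ih, map_smul, pow_succ' (W.F - a • (1 : End Ω W.V)),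
      Module.End.mul_apply]
    set y := ((W.F - a • (1 : End Ω W.V)) ^ j) v
    have h1 : (W.F - (a / q) • (1 : End Ω W.V)) (W.N y) =
        (q : Ω)⁻¹ • W.N ((W.F - a • (1 : End Ω W.V)) y) := by
      rw [LinearMap.sub_apply, LinearMap.sub_apply, map_sub, W.comm, smul_sub, smul_smul,
        inv_mul_cancel₀ hq0, one_smul]
      congr 1
      rw [LinearMap.smul_apply, LinearMap.smul_apply, map_smul, Module.End.one_apply,
        Module.End.one_apply, smul_smul, div_eq_inv_mul]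
    rw [h1, smul_smul, ← mul_inv, ← pow_succ]

theorem N_mem (hq : 0 < q) {a : Ω} {v : W.V} (hv : v ∈ W.F.maxGenEigenspace a) :
    W.N v ∈ W.F.maxGenEigenspace (a / q) := by
  obtain ⟨k, hk⟩ := mem_gen.1 hv
  exact mem_gen.2 ⟨k, by rw [N_comm_pow hq, hk, map_zero, smul_zero]⟩

theorem N_pow_mem (hq : 0 < q) (k : ℕ) {a : Ω} {v : W.V} (hv : v ∈ W.F.maxGenEigenspace a) :
    (W.N ^ k) v ∈ W.F.maxGenEigenspace (a / (q : Ω) ^ k) := by
  induction k with
  | zero => simpa using hv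
  | succ k ih =>
    rw [pow_succ' W.N, Module.End.mul_apply, pow_succ (q : Ω), ← div_div]
    exact N_mem hq ih

theorem N_pow_F (k : ℕ) (v : W.V) : (W.N ^ k) (W.F v) = (q : Ω) ^ k • W.F ((W.N ^ k) v) := by
  induction k with
  | zero => simp
  | succ k ih =>
    rw [pow_succ', Module.End.mul_apply, ih, map_smul, W.comm, smul_smul, pow_succ,
      Module.End.mul_apply]

/-- An eigenvector in the kernel of `N ^ k`. -/
theorem exists_eigenvector {k : ℕ} {a : Ω} {v : W.V} (hv : v ∈ W.F.maxGenEigenspace a)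
    (h0 : v ≠ 0) (hk : (W.N ^ k) v = 0) : ∃ u, u ≠ 0 ∧ W.F u = a • u ∧ (W.N ^ k) u = 0 := by
  classical
  have hex := mem_gen.1 hv
  set j := Nat.find hex with hj
  have h1 := Nat.find_spec hex
  have hj0 : j ≠ 0 := by
    intro h
    rw [← hj, h, pow_zero, Module.End.one_apply] at h1
    exact h0 h1
  obtain ⟨i, hi⟩ := Nat.exists_eq_succ_of_ne_zero hj0
  refine ⟨((W.F - a • (1 : End Ω W.V)) ^ i) v, ?_, ?_, ?_⟩
  · exact Nat.find_min hex (by rw [← hj, hi]; exact Nat.lt_succ_self i)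
  · rw [← hj, hi, pow_succ', Module.End.mul_apply, LinearMap.sub_apply, LinearMap.smul_apply,
      Module.End.one_apply, sub_eq_zero] at h1
    exact h1
  · clear hi h1 hj
    induction i with
    | zero => simpa using hk
    | succ i ih =>
      rw [pow_succ', Module.End.mul_apply, LinearMap.sub_apply, LinearMap.smul_apply,
        Module.End.one_apply, map_sub, map_smul, N_pow_F, ih, map_zero, smul_zero, smul_zero,
        sub_zero]

theorem mult_le (hq : 0 < q) {k : ℕ} {a : Ω}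
    (h : ∀ v ∈ W.F.maxGenEigenspace a, (W.N ^ k) v = 0 → v = 0) :
    W.mult a ≤ W.mult (a / (q : Ω) ^ k) := by
  let f : W.F.maxGenEigenspace a →ₗ[Ω] W.F.maxGenEigenspace (a / (q : Ω) ^ k) :=
    (W.N ^ k).restrict fun v hv => N_pow_mem hq k hv
  refine LinearMap.finrank_le_finrank_of_injective (f := f) ?_
  rw [injective_iff_map_eq_zero]
  intro v hv
  exact Subtype.ext (h v v.2 (congrArg Subtype.val hv))

theorem surj_of (hq : 0 < q) {k : ℕ} {a : Ω}
    (h : ∀ v ∈ W.F.maxGenEigenspace a, (W.N ^ k) v = 0 → v = 0)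
    (hd : W.mult a = W.mult (a / (q : Ω) ^ k)) :
    ∀ u ∈ W.F.maxGenEigenspace (a / (q : Ω) ^ k), ∃ v ∈ W.F.maxGenEigenspace a,
      (W.N ^ k) v = u := by
  let f : W.F.maxGenEigenspace a →ₗ[Ω] W.F.maxGenEigenspace (a / (q : Ω) ^ k) :=
    (W.N ^ k).restrict fun v hv => N_pow_mem hq k hv
  have hinj : Function.Injective f := by
    rw [injective_iff_map_eq_zero]
    intro v hv
    exact Subtype.ext (h v v.2 (congrArg Subtype.val hv))
  have hsurj : Function.Surjective f :=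
    (LinearMap.injective_iff_surjective_of_finrank_eq_finrank hd).1 hinj
  intro u hu
  obtain ⟨v, hv⟩ := hsurj ⟨u, hu⟩
  exact ⟨v, v.2, congrArg Subtype.val hv⟩

theorem mult_pos {a : Ω} {v : W.V} (hv : v ∈ W.F.maxGenEigenspace a) (h0 : v ≠ 0) :
    0 < W.mult a := by
  refine Module.finrank_pos_iff_exists_ne_zero.2 ⟨⟨v, hv⟩, fun h => h0 (congrArg Subtype.val h)⟩

/-- Multiplicities vanish far away. -/
theorem exists_mult_zero (hq : 1 < q) {b : Ω} (hb : b ≠ 0) :
    ∃ j : ℕ, W.mult (b * (q : Ω) ^ j) = 0 := by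
  by_contra hcon
  push Not at hcon
  have hinf : Set.Infinite (Set.range fun j : ℕ => b * (q : Ω) ^ j) := by
    refine Set.infinite_range_of_injective fun i j hij => ?_
    have h1 := mul_left_cancel₀ hb hij
    have h2 : ((q ^ i : ℕ) : Ω) = ((q ^ j : ℕ) : Ω) := by
      push_cast
      exact h1
    exact Nat.pow_right_injective hq (Nat.cast_injective h2)
  refine hinf ((W.F.finite_hasEigenvalue).subset ?_)
  rintro _ ⟨j, rfl⟩
  have h1 : 0 < finrank Ω (W.F.maxGenEigenspace (b * (q : Ω) ^ j)) := Nat.pos_of_ne_zero (hcon j)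
  obtain ⟨x, hx⟩ := Module.finrank_pos_iff_exists_ne_zero.1 h1
  obtain ⟨u, hu, hFu, -⟩ := exists_eigenvector (k := W.nilpotent.choose) x.2
    (fun h => hx (Subtype.ext h)) (by rw [W.nilpotent.choose_spec]; rfl)
  exact Module.End.hasEigenvalue_of_hasEigenvector (Module.End.hasEigenvector_iff.2
    ⟨Module.End.mem_eigenspace_iff.2 hFu, hu⟩)

/-- The tensor product of two eigenvectors. -/
theorem tensor_zero {m : ℕ} (hT : W.TatePart m) {a b : Ω} {x y : W.V} (hx0 : x ≠ 0) (hy0 : y ≠ 0)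
    (hx : W.F x = a • x) (hy : W.F y = b • y) {k l : ℕ} (hxk : (W.N ^ k) x = 0)
    (hyl : (W.N ^ (l + 1)) y = 0) {i : ℕ} (hi : 0 < i) (hkl : k + l = 2 * i)
    (hab : a * b = (q : Ω) ^ (m + i)) : False := by
  have hz : x ⊗ₜ[Ω] y ≠ 0 := by
    intro h
    obtain ⟨φ, hφ⟩ : ∃ φ : Dual Ω W.V, φ x ≠ 0 := by
      by_contra hcon
      push Not at hcon
      exact hx0 ((Module.forall_dual_apply_eq_zero_iff Ω x).1 hcon)
    obtain ⟨ψ, hψ⟩ : ∃ ψ : Dual Ω W.V, ψ y ≠ 0 := by
      by_contra hcon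
      push Not at hcon
      exact hy0 ((Module.forall_dual_apply_eq_zero_iff Ω y).1 hcon)
    have h1 := congrArg (LinearMap.mul' Ω Ω ∘ₗ TensorProduct.map φ ψ) h
    rw [LinearMap.comp_apply, TensorProduct.map_tmul, LinearMap.mul'_apply, map_zero] at h1
    exact mul_ne_zero hφ hψ h1
  refine hz (hT i hi _ ?_ ?_)
  · unfold FN.F2
    rw [TensorProduct.map_tmul, hx, hy, TensorProduct.smul_tmul_smul, hab]
  · set A : End Ω (W.V ⊗[Ω] W.V) := TensorProduct.map W.N LinearMap.id with hA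
    set B : End Ω (W.V ⊗[Ω] W.V) := TensorProduct.map LinearMap.id W.N with hB
    have hcomm : Commute A B := by
      refine TensorProduct.ext' fun u v => ?_
      rw [Module.End.mul_apply, Module.End.mul_apply, hA, hB, TensorProduct.map_tmul,
        TensorProduct.map_tmul, TensorProduct.map_tmul, TensorProduct.map_tmul]
      rfl
    have hApow : ∀ r u v, (A ^ r) (u ⊗ₜ[Ω] v) = ((W.N ^ r) u) ⊗ₜ[Ω] v := by
      intro r u v
      induction r with
      | zero => simp
      | succ r ih =>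
        rw [pow_succ' A, Module.End.mul_apply, ih, hA, TensorProduct.map_tmul, pow_succ' W.N,
          Module.End.mul_apply, LinearMap.id_apply]
    have hBpow : ∀ r u v, (B ^ r) (u ⊗ₜ[Ω] v) = u ⊗ₜ[Ω] ((W.N ^ r) v) := by
      intro r u v
      induction r with
      | zero => simp
      | succ r ih =>
        rw [pow_succ' B, Module.End.mul_apply, ih, hB, TensorProduct.map_tmul, pow_succ' W.N,
          Module.End.mul_apply, LinearMap.id_apply]
    have hsum : W.N2 ^ (2 * i) = ∑ r ∈ Finset.range (2 * i + 1),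
        A ^ r * B ^ (2 * i - r) * ((2 * i).choose r : End Ω (W.V ⊗[Ω] W.V)) := hcomm.add_pow _
    have hzero : ∀ (j : ℕ) (r : ℕ) (v : W.V), (W.N ^ j) v = 0 → j ≤ r → (W.N ^ r) v = 0 := by
      intro j r v hv hjr
      obtain ⟨c, rfl⟩ := Nat.exists_eq_add_of_le' hjr
      rw [pow_add, Module.End.mul_apply, hv, map_zero]
    rw [hsum, LinearMap.sum_apply]
    refine Finset.sum_eq_zero fun r hr => ?_
    have hcast : ∀ z : W.V ⊗[Ω] W.V, ((2 * i).choose r : End Ω (W.V ⊗[Ω] W.V)) z =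
        ((2 * i).choose r : Ω) • z := by
      intro z
      rw [Module.End.natCast_apply, Nat.cast_smul_eq_nsmul]
    rw [Module.End.mul_apply, Module.End.mul_apply, hcast, map_smul, map_smul, hBpow, hApow]
    rw [Finset.mem_range] at hr
    rcases Nat.lt_or_ge r k with h | h
    · rw [hzero (l + 1) (2 * i - r) y hyl (by omega), TensorProduct.tmul_zero, smul_zero]
    · rw [hzero k r x hxk h, TensorProduct.zero_tmul, smul_zero]

end gen

/-- **Injectivity.** -/
theorem injective_of_tate {W : FN.{u} Ω q} (hq : 1 < q) {m : ℕ}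
    (hdual : ∀ a : Ω, a ≠ 0 → W.mult a = W.mult ((q : Ω) ^ m / a))
    (hconj : ∀ (w : ℤ) (a : Ω), IsWeil q w a → W.mult a = W.mult ((q : Ω) ^ w / a))
    (hT : W.TatePart m) {k : ℕ} {a : Ω} (ha : IsWeil q (m + k) a) :
    ∀ v ∈ W.F.maxGenEigenspace a, (W.N ^ k) v = 0 → v = 0 := by
  intro v hv hvk
  by_contra hv0
  have hq0 : 0 < q := by omega
  have hqΩ : (q : Ω) ≠ 0 := by exact_mod_cast hq0.ne'
  have ha0 : a ≠ 0 := ha.ne_zero hq0
  have hk : k ≠ 0 := by
    rintro rfl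
    exact hv0 (by simpa using hvk)
  obtain ⟨x, hx0, hFx, hxk⟩ := exists_eigenvector hv hv0 hvk
  -- the conjugate eigenvalues
  set b : ℕ → Ω := fun j => ((q : Ω) ^ (m + k) / a) * (q : Ω) ^ j with hb
  have hbw : ∀ j, IsWeil q (m + (k + 2 * j : ℕ)) (b j) := by
    intro j
    have h1 := (ha.conj hq0).scale hq0 j
    have h2 : ((m : ℤ) + k) + 2 * (j : ℤ) = m + (k + 2 * j : ℕ) := by push_cast; ring
    rw [h2] at h1
    have h3 : (q : Ω) ^ ((m : ℤ) + k) / a * (q : Ω) ^ (j : ℤ) = b j := by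
      rw [hb, zpow_natCast]
      congr 2
      rw [← Nat.cast_add, zpow_natCast]
    rwa [h3] at h1
  have hinj : ∀ j, ∀ y ∈ W.F.maxGenEigenspace (b j), (W.N ^ (k + 2 * j + 1)) y = 0 → y = 0 := by
    intro j y hy hy0
    by_contra hne
    obtain ⟨z, hz0, hFz, hzk⟩ := exists_eigenvector hy hne hy0
    refine tensor_zero hT hx0 hz0 hFx hFz hxk hzk (i := k + j) (by omega) (by omega) ?_
    rw [hb]
    field_simp
    ring
  have hstep : ∀ j, W.mult (b j) ≤ W.mult (b (j + 1)) := by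
    intro j
    refine (mult_le hq0 (hinj j)).trans (le_of_eq ?_)
    have h1 : b j / (q : Ω) ^ (k + 2 * j + 1) ≠ 0 :=
      div_ne_zero ((hbw j).ne_zero hq0) (pow_ne_zero _ hqΩ)
    rw [hdual _ h1, hconj _ _ (hbw (j + 1))]
    congr 1
    rw [hb]
    have h2 : ((m : ℤ) + (k + 2 * (j + 1) : ℕ)) = ((m + (k + 2 * (j + 1)) : ℕ) : ℤ) := by
      push_cast
      ring
    rw [h2, zpow_natCast]
    field_simp
    ring
  obtain ⟨j, hj⟩ := exists_mult_zero (W := W) hq (b := (q : Ω) ^ (m + k) / a)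
    (div_ne_zero (pow_ne_zero _ hqΩ) ha0)
  have hmono : ∀ j, W.mult (b 0) ≤ W.mult (b j) := by
    intro j
    induction j with
    | zero => exact le_rfl
    | succ j ih => exact ih.trans (hstep j)
  have h1 : W.mult (b 0) = 0 := Nat.le_zero.1 ((hmono j).trans (le_of_eq hj))
  have h2 := hconj _ _ ha
  have h3 : (q : Ω) ^ ((m : ℤ) + k) / a = b 0 := by
    rw [hb]
    simp only [pow_zero, mul_one]
    rw [← Nat.cast_add, zpow_natCast]
  rw [h3, h1] at h2
  exact (mult_pos hv hv0).ne' h2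

/-- **Purity from the Tate part.** -/
theorem isPure_of_tate {W : FN.{u} Ω q} (hq : 1 < q) {m : ℕ} (hmix : W.IsMixed)
    (hdual : ∀ a : Ω, a ≠ 0 → W.mult a = W.mult ((q : Ω) ^ m / a))
    (hconj : ∀ (w : ℤ) (a : Ω), IsWeil q w a → W.mult a = W.mult ((q : Ω) ^ w / a))
    (hT : W.TatePart m) : W.IsPure m := by
  have hq0 : 0 < q := by omega
  have hqΩ : (q : Ω) ≠ 0 := by exact_mod_cast hq0.ne'
  refine ⟨hmix, fun k a ha => ?_⟩
  have hinj := injective_of_tate hq hdual hconj hT ha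
  refine ⟨hinj, surj_of hq0 hinj ?_⟩
  have ha0 := ha.ne_zero hq0
  rw [hdual (a / (q : Ω) ^ k) (div_ne_zero ha0 (pow_ne_zero _ hqΩ)), hconj _ _ ha]
  congr 1
  rw [← Nat.cast_add, zpow_natCast, pow_add]
  field_simp

/-- Pure representations satisfy the conjugation property. -/
theorem conj_of_isPure {W : FN.{u} Ω q} (hq : 1 < q) {m : ℕ}
    (hdual : ∀ a : Ω, a ≠ 0 → W.mult a = W.mult ((q : Ω) ^ m / a)) (hp : W.IsPure m) (w : ℤ) (a : Ω)
    (ha : IsWeil q w a) : W.mult a = W.mult ((q : Ω) ^ w / a) := by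
  have hq0 : 0 < q := by omega
  have hqΩ : (q : Ω) ≠ 0 := by exact_mod_cast hq0.ne'
  have heq : ∀ (k : ℕ) (b : Ω), IsWeil q (m + k) b → W.mult b = W.mult (b / (q : Ω) ^ k) := by
    intro k b hb
    obtain ⟨h1, h2⟩ := hp.2 k b hb
    let f : W.F.maxGenEigenspace b →ₗ[Ω] W.F.maxGenEigenspace (b / (q : Ω) ^ k) :=
      (W.N ^ k).restrict fun v hv => N_pow_mem hq0 k hv
    have hbij : Function.Bijective f := by
      constructor
      · rw [injective_iff_map_eq_zero]
        intro v hv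
        exact Subtype.ext (h1 v v.2 (congrArg Subtype.val hv))
      · intro u
        obtain ⟨v, hv, he⟩ := h2 u u.2
        exact ⟨⟨v, hv⟩, Subtype.ext he⟩
    exact (LinearEquiv.ofBijective f hbij).finrank_eq
  have ha0 := ha.ne_zero hq0
  rcases le_or_gt (m : ℤ) w with h | h
  · obtain ⟨k, hk⟩ := Int.eq_ofNat_of_zero_le (sub_nonneg.2 h)
    have hw : w = m + k := by omega
    subst hw
    rw [heq k a ha, hdual _ (div_ne_zero ha0 (pow_ne_zero _ hqΩ))]
    congr 1
    rw [← Nat.cast_add, zpow_natCast, pow_add]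
    field_simp
  · obtain ⟨k, hk⟩ := Int.eq_ofNat_of_zero_le (sub_nonneg.2 h.le)
    have hw : w = m - k := by omega
    subst hw
    have h1 := ha.scale hq0 k
    have h2 : ((m : ℤ) - k) + 2 * (k : ℤ) = m + k := by ring
    rw [h2, zpow_natCast] at h1
    have h3 := heq k _ h1
    rw [mul_div_assoc, div_self (pow_ne_zero _ hqΩ), mul_one] at h3
    rw [← h3, hdual _ (mul_ne_zero ha0 (pow_ne_zero _ hqΩ))]
    congr 1
    rw [zpow_sub₀ hqΩ, zpow_natCast, zpow_natCast]
    field_simp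

end Pool.Agent.X268.WM
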