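import Pool.Agent.X268.WM.Core

/-!
# The weight-monodromy conjecture from the Tate part
-/

set_option autoImplicit false
set_option linter.unusedSectionVars false

namespace Pool.Agent.X268.WM

open Module
open scoped TensorProduct

universe u

variable {Ω : Type} [Field Ω] [CharZero Ω] {q : ℕ}

/-- Generalized eigenvectors and equivariant maps up to scaling. -/
theorem map_gen {W W' : FN.{u} Ω q} {f : W.V →ₗ[Ω] W'.V} {c : Ω}
    (hF : ∀ v, W'.F (f v) = c • f (W.F v)) {a : Ω} {v : W.V} (hv : v ∈ W.F.maxGenEigenspace a) :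
    f v ∈ W'.F.maxGenEigenspace (c * a) := by
  obtain ⟨j, hj⟩ := mem_gen.1 hv
  refine mem_gen.2 ⟨j, ?_⟩
  have h1 : ((W'.F - (c * a) • (1 : End Ω W'.V)) ^ j) (f v) =
      c ^ j • f (((W.F - a • (1 : End Ω W.V)) ^ j) v) := by
    clear hj
    induction j with
    | zero => simp
    | succ j ih =>
      rw [pow_succ', Module.End.mul_apply, ih, map_smul, pow_succ' (W.F - a • (1 : End Ω W.V)),
        Module.End.mul_apply]
      set y := ((W.F - a • (1 : End Ω W.V)) ^ j) v
      rw [LinearMap.sub_apply, LinearMap.sub_apply, LinearMap.smul_apply, LinearMap.smul_apply,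
        Module.End.one_apply, Module.End.one_apply, hF, map_sub, map_smul, pow_succ]
      simp only [smul_sub, smul_smul, mul_assoc]
  rw [h1, hj, map_zero, smul_zero]

theorem map_N_pow {W W' : FN.{u} Ω q} {f : W.V →ₗ[Ω] W'.V}
    (hN : ∀ v, f (W.N v) = W'.N (f v)) (k : ℕ) (v : W.V) : f ((W.N ^ k) v) = (W'.N ^ k) (f v) := by
  induction k with
  | zero => simp
  | succ k ih =>
    rw [pow_succ', Module.End.mul_apply, hN, ih, pow_succ' W'.N, Module.End.mul_apply]

/-- Subrepresentations of pure representations. -/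
theorem isPure_of_sub {W W' : FN.{u} Ω q} (hq : 1 < q) {m : ℕ} (hmix : W.IsMixed)
    (hdual : ∀ a : Ω, a ≠ 0 → W.mult a = W.mult ((q : Ω) ^ m / a)) (hp : W'.IsPure m)
    {f : W.V →ₗ[Ω] W'.V} (hf : Function.Injective f) (hF : ∀ v, f (W.F v) = W'.F (f v))
    (hN : ∀ v, f (W.N v) = W'.N (f v)) : W.IsPure m := by
  have hq0 : 0 < q := by omega
  have hqΩ : (q : Ω) ≠ 0 := by exact_mod_cast hq0.ne'
  have hinj : ∀ (k : ℕ) (a : Ω), IsWeil q (m + k) a → ∀ v ∈ W.F.maxGenEigenspace a,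
      (W.N ^ k) v = 0 → v = 0 := by
    intro k a ha v hv h0
    have h1 : f v ∈ W'.F.maxGenEigenspace a := by
      have := map_gen (W := W) (W' := W') (f := f) (c := 1) (fun v => by rw [one_smul, hF]) hv
      rwa [one_mul] at this
    have h2 := (hp.2 k a ha).1 _ h1 (by rw [← map_N_pow hN, h0, map_zero])
    exact hf (by rw [h2, map_zero])
  refine ⟨hmix, fun k a ha => ⟨hinj k a ha, surj_of hq0 (hinj k a ha) ?_⟩⟩
  have ha0 := ha.ne_zero hq0
  have ha' := ha.conj hq0
  have e1 := mult_le hq0 (hinj k a ha)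
  have e2 := mult_le hq0 (hinj k _ ha')
  have h3 : W.mult (a / (q : Ω) ^ k) = W.mult ((q : Ω) ^ ((m : ℤ) + k) / a) := by
    rw [hdual _ (div_ne_zero ha0 (pow_ne_zero _ hqΩ))]
    congr 1
    rw [← Nat.cast_add, zpow_natCast, pow_add]
    field_simp
  have h4 : W.mult ((q : Ω) ^ ((m : ℤ) + k) / a / (q : Ω) ^ k) = W.mult a := by
    rw [hdual a ha0]
    congr 1
    rw [← Nat.cast_add, zpow_natCast, pow_add]
    field_simp
  rw [← h3, h4] at e2
  exact le_antisymm e1 e2

/-- Twists of pure representations. -/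
theorem isPure_of_twist {W W' : FN.{u} Ω q} (hq : 1 < q) {m c : ℕ} (hmix : W'.IsMixed)
    (hp : W.IsPure m) (e : W.V ≃ₗ[Ω] W'.V) (hF : ∀ v, W'.F (e v) = (q : Ω) ^ c • e (W.F v))
    (hN : ∀ v, W'.N (e v) = e (W.N v)) : W'.IsPure (m + 2 * c) := by
  have hq0 : 0 < q := by omega
  have hqΩ : (q : Ω) ≠ 0 := by exact_mod_cast hq0.ne'
  have hF' : ∀ v, W.F (e.symm v) = ((q : Ω) ^ c)⁻¹ • e.symm (W'.F v) := by
    intro v
    have h1 := hF (e.symm v)
    rw [LinearEquiv.apply_symm_apply] at h1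
    rw [h1, map_smul, LinearEquiv.symm_apply_apply, smul_smul,
      inv_mul_cancel₀ (pow_ne_zero _ hqΩ), one_smul]
  have hN' : ∀ v, e.symm (W'.N v) = W.N (e.symm v) := by
    intro v
    have h1 := hN (e.symm v)
    rw [LinearEquiv.apply_symm_apply] at h1
    rw [h1, LinearEquiv.symm_apply_apply]
  refine ⟨hmix, fun k a ha => ?_⟩
  have h1 : IsWeil q (m + k) (((q : Ω) ^ c)⁻¹ * a) := by
    have h2 := ha.scale hq0 (-c)
    have h3 : (((m + 2 * c : ℕ) : ℤ) + k) + 2 * (-(c : ℤ)) = m + k := by push_cast; ring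
    rwa [h3, zpow_neg, zpow_natCast, mul_comm] at h2
  obtain ⟨g1, g2⟩ := hp.2 k _ h1
  constructor
  · intro v hv h0
    have h2 : e.symm v ∈ W.F.maxGenEigenspace (((q : Ω) ^ c)⁻¹ * a) :=
      map_gen (W := W') (W' := W) (f := e.symm.toLinearMap) hF' hv
    have h3 := g1 _ h2 (by
      have h4 := map_N_pow (W := W') (W' := W) (f := e.symm.toLinearMap) hN' k v
      rw [h0, map_zero] at h4
      exact h4.symm)
    exact e.symm.map_eq_zero_iff.1 h3
  · intro u hu
    have h2 : e.symm u ∈ W.F.maxGenEigenspace (((q : Ω) ^ c)⁻¹ * a / (q : Ω) ^ k) := by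
      have h3 := map_gen (W := W') (W' := W) (f := e.symm.toLinearMap) hF' hu
      rwa [← mul_div_assoc] at h3
    obtain ⟨v, hv, hvu⟩ := g2 _ h2
    refine ⟨e v, ?_, ?_⟩
    · have h3 := map_gen (W := W) (W' := W') (f := e.toLinearMap) (c := (q : Ω) ^ c) hF hv
      rwa [← mul_assoc, mul_inv_cancel₀ (pow_ne_zero _ hqΩ), one_mul] at h3
    · have h3 := map_N_pow (W := W) (W' := W') (f := e.toLinearMap) (fun v => (hN v).symm) k v
      rw [hvu] at h3
      rw [← LinearEquiv.coe_toLinearMap, ← h3]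
      exact e.apply_symm_apply u

/-- The middle degree. -/
theorem middle (𝒞 : Cohomology.{u} Ω q) (hq : 1 < q) {n : ℕ} (X : 𝒞.Var n)
    (hp : ∀ m ≤ 2 * n, m ≠ n → (𝒞.H X m).IsPure m) (hT : (𝒞.H X n).TatePart n) :
    (𝒞.H X n).IsPure n := by
  refine isPure_of_tate hq (𝒞.mixed X n) (𝒞.duality X n (by omega)) (fun w a ha => ?_) hT
  have h1 := 𝒞.euler X a ((q : Ω) ^ w / a) ha.1 (ha.minpoly_conj (by omega)).symm
  unfold altMult at h1
  have h2 : ∀ m ∈ (Finset.range (2 * n + 1)).erase n, (-1 : ℤ) ^ m * ((𝒞.H X m).mult a : ℤ) =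
      (-1 : ℤ) ^ m * ((𝒞.H X m).mult ((q : Ω) ^ w / a) : ℤ) := by
    intro m hm
    rw [Finset.mem_erase, Finset.mem_range] at hm
    rw [conj_of_isPure hq (𝒞.duality X m (by omega)) (hp m (by omega) hm.1) w a ha]
  have hn : n ∈ Finset.range (2 * n + 1) := Finset.mem_range.2 (by omega)
  rw [← Finset.add_sum_erase _ _ hn, ← Finset.add_sum_erase _ _ hn, Finset.sum_congr rfl h2] at h1
  have h3 := add_right_cancel h1
  have h4 : ((-1 : ℤ)) ^ n ≠ 0 := pow_ne_zero _ (by norm_num)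
  exact_mod_cast mul_left_cancel₀ h4 h3

/-- **The weight-monodromy conjecture follows from its Tate part.** -/
theorem weightMonodromy_of_tate (𝒞 : Cohomology.{u} Ω q) (hq : 1 < q)
    (hT : ∀ (n : ℕ) (X : 𝒞.Var n), (𝒞.H X n).TatePart n) :
    ∀ (n : ℕ) (X : 𝒞.Var n) (m : ℕ), m ≤ 2 * n → (𝒞.H X m).IsPure m := by
  intro n
  induction n with
  | zero =>
    intro X m hm
    have h0 : m = 0 := by omega
    subst h0
    exact middle 𝒞 hq X (fun m hm h => absurd (by omega) h) (hT 0 X)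
  | succ n ih =>
    intro X
    obtain ⟨Y, hY⟩ := 𝒞.hyperplane X
    have hlow : ∀ m ≤ n, (𝒞.H X m).IsPure m := by
      intro m hm
      obtain ⟨f, hf, hF, hN⟩ := hY m hm
      exact isPure_of_sub hq (𝒞.mixed X m) (𝒞.duality X m (by omega)) (ih Y m (by omega)) hf hF hN
    have hhigh : ∀ m, n + 1 < m → m ≤ 2 * (n + 1) → (𝒞.H X m).IsPure m := by
      intro m h1 h2
      obtain ⟨l, hl, rfl⟩ : ∃ l, l ≤ n ∧ m = 2 * (n + 1) - l := ⟨2 * (n + 1) - m, by omega, by omega⟩
      obtain ⟨e, hF, hN⟩ := 𝒞.lefschetz X l (by omega)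
      have h3 := isPure_of_twist hq (𝒞.mixed X _) (hlow l hl) e hF hN
      rwa [show l + 2 * (n + 1 - l) = 2 * (n + 1) - l by omega] at h3
    intro m hm
    rcases lt_trichotomy m (n + 1) with h | h | h
    · exact hlow m (by omega)
    · subst h
      refine middle 𝒞 hq X (fun m hm hne => ?_) (hT _ X)
      rcases Nat.lt_or_ge m (n + 1) with h | h
      · exact hlow m (by omega)
      · exact hhigh m (by omega) hm
    · exact hhigh m h hm

end Pool.Agent.X268.WM
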