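import Mathlib

/-!
# Frobenius and monodromy operators, weights
-/

set_option autoImplicit false

namespace Pool.Agent.X268.WM

open Module
open scoped TensorProduct

universe u

/-- A finite-dimensional vector space over `Ω` with an endomorphism `F` (the action of a geometric
Frobenius element) and a nilpotent endomorphism `N` (the monodromy operator) with `N F = q F N`. -/
structure FN (Ω : Type) [Field Ω] (q : ℕ) where
  V : Type u
  [grp : AddCommGroup V]
  [mod : Module Ω V]
  [fin : FiniteDimensional Ω V]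
  F : End Ω V
  N : End Ω V
  comm : ∀ v, N (F v) = (q : Ω) • F (N v)
  nilpotent : IsNilpotent N

attribute [instance] FN.grp FN.mod FN.fin

variable {Ω : Type} [Field Ω] [CharZero Ω] {q : ℕ}

/-- The multiplicity of `a` as an eigenvalue of Frobenius. -/
noncomputable def FN.mult (W : FN.{u} Ω q) (a : Ω) : ℕ := finrank Ω (W.F.maxGenEigenspace a)

/-- The number `a` is a `q`-Weil number of weight `w`: it is algebraic and all its complex conjugates
have the absolute value `q ^ (w / 2)`. -/
def IsWeil (q : ℕ) (w : ℤ) (a : Ω) : Prop :=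
  IsAlgebraic ℚ a ∧ ∀ z : ℂ, Polynomial.aeval z (minpoly ℚ a) = 0 → ‖z‖ ^ 2 = (q : ℝ) ^ w

/-- All the eigenvalues of Frobenius are `q`-Weil numbers of some weights. -/
def FN.IsMixed (W : FN.{u} Ω q) : Prop := ∀ a, W.F.HasEigenvalue a → ∃ w : ℤ, IsWeil q w a

/-- The weight-monodromy property (purity of weight `m`): for `k ≥ 0` the operator `N ^ k` maps the
subspace of weight `m + k` (the sum of the generalized eigenspaces of Frobenius for the eigenvalues
`a` of weight `m + k`) isomorphically onto the subspace of weight `m - k`. -/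
def FN.IsPure (W : FN.{u} Ω q) (m : ℕ) : Prop :=
  W.IsMixed ∧ ∀ k : ℕ, ∀ a : Ω, IsWeil q (m + k) a →
    (∀ v ∈ W.F.maxGenEigenspace a, (W.N ^ k) v = 0 → v = 0) ∧
    ∀ u ∈ W.F.maxGenEigenspace (a / (q : Ω) ^ k), ∃ v ∈ W.F.maxGenEigenspace a, (W.N ^ k) v = u

/-- The Frobenius operator on `W ⊗ W`. -/
noncomputable def FN.F2 (W : FN.{u} Ω q) : End Ω (W.V ⊗[Ω] W.V) := TensorProduct.map W.F W.F

/-- The monodromy operator on `W ⊗ W`. -/
noncomputable def FN.N2 (W : FN.{u} Ω q) : End Ω (W.V ⊗[Ω] W.V) :=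
  TensorProduct.map W.N LinearMap.id + TensorProduct.map LinearMap.id W.N

/-- For `i > 0` no nonzero Frobenius eigenvector in `W ⊗ W` with the eigenvalue `q ^ (m + i)` is
killed by `N ^ (2 i)`. -/
def FN.TatePart (W : FN.{u} Ω q) (m : ℕ) : Prop :=
  ∀ i : ℕ, 0 < i → ∀ z : W.V ⊗[Ω] W.V, W.F2 z = (q : Ω) ^ (m + i) • z → (W.N2 ^ (2 * i)) z = 0 →
    z = 0

/-- `W'` is isomorphic to the Tate twist of `W` for which the eigenvalues of Frobenius are multiplied
with `q ^ c`. -/
def FN.IsTwist (W W' : FN.{u} Ω q) (c : ℕ) : Prop :=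
  ∃ e : W.V ≃ₗ[Ω] W'.V, (∀ v, W'.F (e v) = (q : Ω) ^ c • e (W.F v)) ∧ ∀ v, W'.N (e v) = e (W.N v)

/-- `W` is isomorphic to a subspace of `W'` (with `F` and `N`). -/
def FN.Embeds (W W' : FN.{u} Ω q) : Prop :=
  ∃ f : W.V →ₗ[Ω] W'.V, Function.Injective f ∧ (∀ v, f (W.F v) = W'.F (f v)) ∧
    ∀ v, f (W.N v) = W'.N (f v)

/-- The multiplicity of `a` in the alternating product of the characteristic polynomials. -/
noncomputable def altMult (H : ℕ → FN.{u} Ω q) (n : ℕ) (a : Ω) : ℤ :=
  ∑ m ∈ Finset.range (2 * n + 1), (-1 : ℤ) ^ m * (H m).mult a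

/-- The `ℓ`-adic cohomology of smooth projective varieties over a local field with residue field of
`q` elements, with coefficients in an algebraic closure `Ω` of the field of `ℓ`-adic numbers: `Var n` are
the varieties of dimension `n`, and `H X m` is the cohomology of degree `m` of `X`. -/
structure Cohomology (Ω : Type) [Field Ω] [CharZero Ω] (q : ℕ) where
  Var : ℕ → Type
  H : {n : ℕ} → Var n → ℕ → FN.{u} Ω q
  /-- the eigenvalues of Frobenius are Weil numbers -/
  mixed : ∀ {n : ℕ} (X : Var n) (m : ℕ), (H X m).IsMixed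
  /-- Poincaré duality and the hard Lefschetz theorem: `H^m` is dual to `H^m (m)` -/
  duality : ∀ {n : ℕ} (X : Var n) (m : ℕ), m ≤ 2 * n → ∀ a : Ω, a ≠ 0 →
    (H X m).mult a = (H X m).mult ((q : Ω) ^ m / a)
  /-- the hard Lefschetz theorem: `H^(2 n - m)` is a twist of `H^m` -/
  lefschetz : ∀ {n : ℕ} (X : Var n) (m : ℕ), m ≤ n → (H X m).IsTwist (H X (2 * n - m)) (n - m)
  /-- the alternating product of the characteristic polynomials of Frobenius is rational: conjugate
  numbers have the same multiplicities -/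
  euler : ∀ {n : ℕ} (X : Var n) (a b : Ω), IsAlgebraic ℚ a → minpoly ℚ a = minpoly ℚ b →
    altMult (H X) n a = altMult (H X) n b
  /-- smooth hyperplane sections and the weak Lefschetz theorem -/
  hyperplane : ∀ {n : ℕ} (X : Var (n + 1)), ∃ Y : Var n, ∀ m ≤ n, (H X m).Embeds (H Y m)

end Pool.Agent.X268.WM
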